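import Mathlib
import Pool.Agent.Helper974.HeatMain

namespace Pool.Agent.Results.MP_4a15bf_mp.HeatTraceS3

open Pool.Agent.Helper974.Heat Metric
open scoped ContDiff

/-- The infimum in the definition of the eigenvalues is over a nonempty set of reals which is
bounded below (stated for `S^3`). -/
theorem eig_set {W : EE 3 → ℝ} (hW : IsWeight W) (k : ℕ) :
    {L : ℝ | ∃ f : Fin (k + 1) → EE 3 → ℝ, (∀ i, ContDiff ℝ ∞ (f i)) ∧
      ∀ c : Fin (k + 1) → ℝ, c ≠ 0 → 0 < mass W (fun x => ∑ i, c i * f i x) ∧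
        energy (fun x => ∑ i, c i * f i x) ≤ L * mass W (fun x => ∑ i, c i * f i x)}.Nonempty ∧
    BddBelow {L : ℝ | ∃ f : Fin (k + 1) → EE 3 → ℝ, (∀ i, ContDiff ℝ ∞ (f i)) ∧
      ∀ c : Fin (k + 1) → ℝ, c ≠ 0 → 0 < mass W (fun x => ∑ i, c i * f i x) ∧
        energy (fun x => ∑ i, c i * f i x) ≤ L * mass W (fun x => ∑ i, c i * f i x)} := by
  refine ⟨?_, ES_bdd W k⟩
  have hne : (sphere (0 : EE 3) 1).Nonempty := ⟨EuclideanSpace.single 0 1, by simp⟩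
  obtain ⟨y, hy, hmin⟩ := (isCompact_sphere (0 : EE 3) 1).exists_isMinOn hne
    hW.smooth.continuous.continuousOn
  have hpos : 0 < W y := hW.pos ⟨y, hy⟩
  obtain ⟨p⟩ := exists_plat (r := 1 / 4) (by norm_num) (by norm_num)
  refine ⟨_, ES_mem p hW.smooth.continuous (κ := W y * (1 - (1 - 1 / 4) ^ 2)) (by positivity)
    (fun x hx => ?_) k⟩
  have h1 : W y ≤ W x := hmin x.2
  have h2 := abs_le.1 hx
  have h3 : (1 - (1 - 1 / 4 : ℝ) ^ 2) ≤ 1 - (x : EE 3) 3 ^ 2 := by nlinarith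
  exact mul_le_mul h1 h3 (by norm_num) (hpos.le.trans h1)

/-- **The heat trace bound fails.** There are `n ≥ 3` and a weight `W` on `S^n` with
`C(W) > C(1)`. -/
theorem result : ∃ n : ℕ, 3 ≤ n ∧ ∃ W : EE n → ℝ, IsWeight W ∧
    supTrace (fun _ : EE n => (1 : ℝ)) < supTrace W :=
  ⟨3, le_rfl, main⟩

end Pool.Agent.Results.MP_4a15bf_mp.HeatTraceS3
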